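import Pool.Agent.W586.SK.Stm2
import Pool.Agent.W923.SK.Field

/-! # The vector field -/

set_option autoImplicit false

namespace Pool.Agent.W398.SX

open MeasureTheory Set
open Pool.Agent.W586.SK (E nm dv chi)
open Pool.Agent.W586.SX
open Pool.Agent.W923.SKF (cd_sq hd_sq chi_nonneg chi_le chi_zero chi_one cd_chi cd_coord line)

theorem hd_m (R u : ℝ) : HasDerivAt (fun u : ℝ => (max (1 - u ^ 2 / R ^ 2) 0) ^ 2)
      (2 * max (1 - u ^ 2 / R ^ 2) 0 * (-(2 * u / R ^ 2))) u := by
  have h1 : HasDerivAt (fun u : ℝ => 1 - u ^ 2 / R ^ 2) (-(2 * u / R ^ 2)) u := by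
    have h2 : HasDerivAt (fun u : ℝ => u ^ 2) (2 * u) u := by
      have h4 := hasDerivAt_pow 2 u
      simpa using h4
    exact (h2.div_const (R ^ 2)).const_sub 1
  exact HasDerivAt.comp u (hd_sq (1 - u ^ 2 / R ^ 2)) h1

/-- derivative of `qq` -/
noncomputable def dqq (R u : ℝ) : ℝ :=
  (1 / 2 * (1 / R)) * (max (1 - u ^ 2 / R ^ 2) 0) ^ 2 +
    (1 / 2 * (1 + u / R)) * (2 * max (1 - u ^ 2 / R ^ 2) 0 * (-(2 * u / R ^ 2)))

theorem hd_qq (R u : ℝ) : HasDerivAt (qq R) (dqq R u) u := by
  have h1 : HasDerivAt (fun u : ℝ => 1 / 2 * (1 + u / R)) (1 / 2 * (1 / R)) u :=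
    (((hasDerivAt_id' u).div_const R).const_add 1).const_mul (1 / 2)
  exact h1.mul (hd_m R u)

theorem cd_qq (R : ℝ) : ContDiff ℝ 1 (qq R) := by
  unfold qq
  have h1 : ContDiff ℝ 1 (fun u : ℝ => 1 - u ^ 2 / R ^ 2) :=
    contDiff_const.sub ((contDiff_id.pow 2).div_const _)
  have h2 : ContDiff ℝ 1 (fun u : ℝ => 1 / 2 * (1 + u / R)) :=
    contDiff_const.mul (contDiff_const.add (contDiff_id.div_const _))
  exact h2.mul (cd_sq.comp h1)

theorem dqq_ge (R u : ℝ) (hR : 0 < R) : 1 / (2 * R) * (1 - 6 * |u| / R) ≤ dqq R u := by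
  have e : dqq R u = 1 / (2 * R) * ((max (1 - (u / R) ^ 2) 0) ^ 2 -
      4 * (u / R) * (1 + u / R) * max (1 - (u / R) ^ 2) 0) := by
    unfold dqq
    rw [← div_pow]
    field_simp
    ring
  have h2 : 6 * |u| / R = 6 * |u / R| := by
    rw [abs_div, abs_of_pos hR]; ring
  rw [e, h2]
  refine mul_le_mul_of_nonneg_left ?_ (by positivity)
  generalize u / R = t
  rcases le_total |t| 1 with h | h
  · obtain ⟨h1, h3⟩ := abs_le.mp h
    rw [max_eq_left (by nlinarith)]
    rcases le_total 0 t with ht | ht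
    · rw [abs_of_nonneg ht]
      have h4 : 0 ≤ 2 - 6 * t + 4 * t ^ 2 + 5 * t ^ 3 := by
        nlinarith [mul_nonneg ht (sq_nonneg (t - 2 / 5)), sq_nonneg (t - 2 / 5)]
      nlinarith [mul_nonneg ht h4]
    · rw [abs_of_nonpos ht]
      have h5 : 0 ≤ -t := by linarith
      have h4 : 0 ≤ 10 - 6 * (-t) - 4 * (-t) ^ 2 + 5 * (-t) ^ 3 := by
        have : 0 ≤ (-t) ^ 3 := by positivity
        nlinarith
      nlinarith [mul_nonneg h5 h4]
  · have h3 : 1 ≤ t ^ 2 := by
      rw [← sq_abs]; nlinarith
    rw [max_eq_right (by linarith)]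
    linarith

theorem qq_zero (R u : ℝ) (hR : 0 < R) (h : R ≤ |u|) : qq R u = 0 := by
  unfold qq
  have h3 : 1 - u ^ 2 / R ^ 2 ≤ 0 := by
    rw [sub_nonpos, one_le_div (by positivity), ← sq_abs u]
    exact pow_le_pow_left₀ hR.le h 2
  rw [max_eq_right h3]
  ring

theorem qq_nonneg (R u : ℝ) (hR : 0 < R) : 0 ≤ qq R u := by
  rcases le_total R |u| with h | h
  · rw [qq_zero R u hR h]
  · unfold qq
    have h1 : 0 ≤ 1 + u / R := by
      have : -1 ≤ u / R := by
        rw [le_div_iff₀ hR]
        have := (abs_le.mp h).1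
        linarith
      linarith
    positivity

theorem qq_le (R u : ℝ) (hR : 0 < R) : qq R u ≤ 1 := by
  rcases le_total R |u| with h | h
  · rw [qq_zero R u hR h]
    norm_num
  · unfold qq
    have h1 : u / R ≤ 1 := by
      rw [div_le_one hR]
      exact (abs_le.mp h).2
    have h1' : -1 ≤ u / R := by
      rw [le_div_iff₀ hR]
      have := (abs_le.mp h).1
      linarith
    have h2 : max (1 - u ^ 2 / R ^ 2) 0 ≤ 1 := by
      refine max_le ?_ (by norm_num)
      have : 0 ≤ u ^ 2 / R ^ 2 := by positivity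
      linarith
    have h3 : 0 ≤ max (1 - u ^ 2 / R ^ 2) 0 := le_max_right _ _
    have h4 : (max (1 - u ^ 2 / R ^ 2) 0) ^ 2 ≤ 1 := by nlinarith
    have h5 : 1 / 2 * (1 + u / R) ≤ 1 := by linarith
    have h6 : 0 ≤ 1 / 2 * (1 + u / R) := by linarith
    nlinarith [sq_nonneg (max (1 - u ^ 2 / R ^ 2) 0)]

/-- derivative of `ph` -/
noncomputable def dph (R u : ℝ) : ℝ :=
  1 / 4 * ((Real.exp (u / (2 * R)) * (1 / (2 * R)) * (1 + Real.exp (u / (2 * R))) -
    Real.exp (u / (2 * R)) * (Real.exp (u / (2 * R)) * (1 / (2 * R)))) /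
      (1 + Real.exp (u / (2 * R))) ^ 2)

theorem hd_ph (R u : ℝ) : HasDerivAt (ph R) (dph R u) u := by
  have h1 : HasDerivAt (fun u : ℝ => Real.exp (u / (2 * R)))
      (Real.exp (u / (2 * R)) * (1 / (2 * R))) u := ((hasDerivAt_id' u).div_const (2 * R)).exp
  have h2 := h1.const_add 1
  have h3 : (1 + Real.exp (u / (2 * R))) ≠ 0 := by positivity
  exact ((h1.div h2 h3).const_mul (1 / 4)).const_add (1 / 4)

theorem cd_ph (R : ℝ) : ContDiff ℝ 1 (ph R) := by
  unfold ph
  have h1 : ContDiff ℝ 1 (fun u : ℝ => Real.exp (u / (2 * R))) :=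
    Real.contDiff_exp.comp (contDiff_id.div_const _)
  refine contDiff_const.add (contDiff_const.mul (h1.div (contDiff_const.add h1) ?_))
  intro u
  positivity

theorem ph_ge (R u : ℝ) : 1 / 4 ≤ ph R u := by
  unfold ph
  have : 0 ≤ Real.exp (u / (2 * R)) / (1 + Real.exp (u / (2 * R))) := by positivity
  linarith

theorem ph_le (R u : ℝ) : ph R u ≤ 1 / 2 := by
  unfold ph
  have : Real.exp (u / (2 * R)) / (1 + Real.exp (u / (2 * R))) ≤ 1 := by
    rw [div_le_one (by positivity)]
    linarith
  linarith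

theorem dph_le (R u : ℝ) (hR : 0 < R) : dph R u ≤ 1 / (32 * R) := by
  unfold dph
  have he : 0 < Real.exp (u / (2 * R)) := Real.exp_pos _
  generalize Real.exp (u / (2 * R)) = e at he
  have h1 : e * (1 / (2 * R)) * (1 + e) - e * (e * (1 / (2 * R))) = e / (2 * R) := by ring
  rw [h1]
  have h2 : e / (1 + e) ^ 2 ≤ 1 / 4 := by
    rw [div_le_div_iff₀ (by positivity) (by norm_num)]
    nlinarith [sq_nonneg (1 - e)]
  have h3 : 1 / 4 * (e / (2 * R) / (1 + e) ^ 2) = 1 / (8 * R) * (e / (1 + e) ^ 2) := by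
    field_simp
    norm_num
  rw [h3]
  calc 1 / (8 * R) * (e / (1 + e) ^ 2) ≤ 1 / (8 * R) * (1 / 4) :=
        mul_le_mul_of_nonneg_left h2 (by positivity)
    _ = 1 / (32 * R) := by
        field_simp
        norm_num

theorem hd_ps (R s : ℝ) : HasDerivAt (ps R) (-(Real.exp (-s / R) / R)) s := by
  unfold ps
  have h1 : HasDerivAt (fun s : ℝ => -s / R) (-1 / R) s := (hasDerivAt_id' s).neg.div_const R
  have h2 := (h1.exp).const_add 1
  have h3 : -(Real.exp (-s / R) / R) = Real.exp (-s / R) * (-1 / R) := by ring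
  rw [h3]
  exact h2

theorem cd_ps (R : ℝ) : ContDiff ℝ 1 (ps R) := by
  unfold ps
  have h1 : ContDiff ℝ 1 (fun s : ℝ => -s / R) := contDiff_id.neg.div_const _
  exact contDiff_const.add (Real.contDiff_exp.comp h1)

theorem cd_Qa {n : ℕ} (R : ℝ) (k l : Fin n) : ContDiff ℝ 1 (fun x : E n => Qa R k l x) := by
  unfold Qa
  exact contDiff_const.mul (ContDiff.sum fun j _ => (cd_qq R).comp (cd_coord j))

theorem cd_Qn {n : ℕ} (R : ℝ) (k l : Fin n) : ContDiff ℝ 1 (fun x : E n => Qa R k l (-x)) :=
  (cd_Qa R k l).comp contDiff_neg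

theorem Qa_nonneg {n : ℕ} (R : ℝ) (hR : 0 < R) (k l : Fin n) (x : E n) : 0 ≤ Qa R k l x := by
  unfold Qa
  exact mul_nonneg (by positivity) (Finset.sum_nonneg fun j _ => qq_nonneg R _ hR)

theorem Qa_le {n : ℕ} (R : ℝ) (hR : 0 < R) (k l : Fin n) (x : E n) : Qa R k l x ≤ 1 := by
  unfold Qa
  have hn : (0 : ℝ) < n := by exact_mod_cast (Nat.lt_of_le_of_lt (Nat.zero_le _) k.2)
  have h1 : ∑ j ∈ (Finset.univ.erase k).erase l, qq R (x j) ≤
      ∑ _j ∈ (Finset.univ.erase k).erase l, (1 : ℝ) := Finset.sum_le_sum fun j _ => qq_le R _ hR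
  rw [Finset.sum_const, nsmul_eq_mul, mul_one] at h1
  have h2 : (((Finset.univ.erase k).erase l).card : ℝ) ≤ n := by
    have : ((Finset.univ.erase k).erase l).card ≤ (Finset.univ : Finset (Fin n)).card :=
      Finset.card_le_card ((Finset.erase_subset _ _).trans (Finset.erase_subset _ _))
    rw [Finset.card_univ, Fintype.card_fin] at this
    exact_mod_cast this
  rw [one_div, inv_mul_le_iff₀ hn]
  linarith

theorem fx_apply {n : ℕ} (R : ℝ) (k l : Fin n) (x : E n) (j : Fin n) : fx R k l x j =
    if j = k then ps R (x k - x l) * (1 - ph R (-x k) * chi R (-x l) * Qa R k l (-x))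
    else if j = l then -(ps R (x k - x l) * (1 - ph R (x l) * chi R (x k) * Qa R k l x))
    else -(ps R (x k - x l) / n *
      (ph R (x l) * chi R (x k) * qq R (x j) - ph R (-x k) * chi R (-x l) * qq R (-x j))) := rfl

theorem cd_comp {n : ℕ} (R : ℝ) (k l j : Fin n) : ContDiff ℝ 1 (fun x : E n => fx R k l x j) := by
  have c1 : ContDiff ℝ 1 (fun x : E n => ps R (x k - x l)) :=
    (cd_ps R).comp ((cd_coord k).sub (cd_coord l))
  have c2 : ContDiff ℝ 1 (fun x : E n => ph R (x l)) := (cd_ph R).comp (cd_coord l)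
  have c3 : ContDiff ℝ 1 (fun x : E n => ph R (-x k)) := (cd_ph R).comp (cd_coord k).neg
  have c4 : ContDiff ℝ 1 (fun x : E n => chi R (x k)) := (cd_chi R).comp (cd_coord k)
  have c5 : ContDiff ℝ 1 (fun x : E n => chi R (-x l)) := (cd_chi R).comp (cd_coord l).neg
  have c6 : ContDiff ℝ 1 (fun x : E n => qq R (x j)) := (cd_qq R).comp (cd_coord j)
  have c7 : ContDiff ℝ 1 (fun x : E n => qq R (-x j)) := (cd_qq R).comp (cd_coord j).neg
  simp only [fx_apply]
  split_ifs
  · exact c1.mul (contDiff_const.sub ((c3.mul c5).mul (cd_Qn R k l)))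
  · exact (c1.mul (contDiff_const.sub ((c2.mul c4).mul (cd_Qa R k l)))).neg
  · exact ((c1.div_const _).mul (((c2.mul c4).mul c6).sub ((c3.mul c5).mul c7))).neg

theorem cd_fx {n : ℕ} (R : ℝ) (k l : Fin n) : ContDiff ℝ 1 (fx R k l : E n → E n) := by
  rw [contDiff_euclidean]
  exact fun j => cd_comp R k l j

theorem fderiv_comp {n : ℕ} (R : ℝ) (k l j : Fin n) (x v : E n) :
    (fderiv ℝ (fx R k l) x v) j = fderiv ℝ (fun y : E n => fx R k l y j) x v := by
  have h1 : HasFDerivAt (fx R k l) (fderiv ℝ (fx R k l) x) x :=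
    ((cd_fx R k l).differentiable (by norm_num) x).hasFDerivAt
  have h2 := (EuclideanSpace.proj j : E n →L[ℝ] ℝ).hasFDerivAt.comp x h1
  have h3 : fderiv ℝ (fun y : E n => fx R k l y j) x =
      (EuclideanSpace.proj j : E n →L[ℝ] ℝ).comp (fderiv ℝ (fx R k l) x) := h2.fderiv
  rw [h3]
  rfl

theorem Qa_add {n : ℕ} (R : ℝ) (k l i : Fin n) (hi : i = k ∨ i = l) (x : E n) (t : ℝ) :
    Qa R k l (x + t • EuclideanSpace.single i (1 : ℝ)) = Qa R k l x := by
  unfold Qa
  congr 1
  refine Finset.sum_congr rfl fun j hj => ?_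
  rw [Finset.mem_erase, Finset.mem_erase] at hj
  have : j ≠ i := by
    rintro rfl
    rcases hi with h | h
    · exact hj.2.1 h
    · exact hj.1 h
  congr 1
  simp [this]

theorem Qa_addn {n : ℕ} (R : ℝ) (k l i : Fin n) (hi : i = k ∨ i = l) (x : E n) (t : ℝ) :
    Qa R k l (-(x + t • EuclideanSpace.single i (1 : ℝ))) = Qa R k l (-x) := by
  have : -(x + t • EuclideanSpace.single i (1 : ℝ)) =
      -x + (-t) • EuclideanSpace.single i (1 : ℝ) := by
    rw [neg_add, neg_smul]
  rw [this, Qa_add R k l i hi]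

theorem term_k {n : ℕ} (R : ℝ) (k l : Fin n) (hkl : k ≠ l) (x : E n) :
    (fderiv ℝ (fx R k l) x (EuclideanSpace.single k 1)) k =
      -(Real.exp (-(x k - x l) / R) / R) * (1 - ph R (-x k) * chi R (-x l) * Qa R k l (-x)) +
        ps R (x k - x l) * (dph R (-x k) * chi R (-x l) * Qa R k l (-x)) := by
  rw [fderiv_comp]
  refine line _ (cd_comp R k l k) _ _ _ ?_
  have h1 : (fun t : ℝ => fx R k l (x + t • EuclideanSpace.single k (1 : ℝ)) k) =
      fun t => ps R ((x k + t) - x l) *
        (1 - ph R (-(x k + t)) * chi R (-x l) * Qa R k l (-x)) := by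
    funext t
    rw [fx_apply, if_pos rfl, Qa_addn R k l k (Or.inl rfl)]
    have h3 : (x + t • EuclideanSpace.single k (1 : ℝ)) l = x l := by simp [hkl.symm]
    have h4 : (x + t • EuclideanSpace.single k (1 : ℝ)) k = x k + t := by simp
    rw [h3, h4]
  rw [h1]
  have i1 : HasDerivAt (fun t : ℝ => (x k + t) - x l) 1 0 :=
    ((hasDerivAt_id' (0 : ℝ)).const_add (x k)).sub_const (x l)
  have i2 : HasDerivAt (fun t : ℝ => -(x k + t)) (-1) 0 :=
    ((hasDerivAt_id' (0 : ℝ)).const_add (x k)).neg
  have A : HasDerivAt (fun t : ℝ => ps R ((x k + t) - x l))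
      (-(Real.exp (-((x k + 0) - x l) / R) / R) * 1) 0 :=
    HasDerivAt.comp (h₂ := ps R) (h := fun t : ℝ => (x k + t) - x l) 0 (hd_ps R _) i1
  have B : HasDerivAt (fun t : ℝ => ph R (-(x k + t))) (dph R (-(x k + 0)) * (-1)) 0 :=
    HasDerivAt.comp (h₂ := ph R) (h := fun t : ℝ => -(x k + t)) 0 (hd_ph R _) i2
  have := A.mul (((B.mul_const (chi R (-x l))).mul_const (Qa R k l (-x))).const_sub 1)
  refine this.congr_deriv ?_
  simp only [add_zero]
  ring

theorem term_l {n : ℕ} (R : ℝ) (k l : Fin n) (hkl : k ≠ l) (x : E n) :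
    (fderiv ℝ (fx R k l) x (EuclideanSpace.single l 1)) l =
      -(Real.exp (-(x k - x l) / R) / R) * (1 - ph R (x l) * chi R (x k) * Qa R k l x) +
        ps R (x k - x l) * (dph R (x l) * chi R (x k) * Qa R k l x) := by
  rw [fderiv_comp]
  refine line _ (cd_comp R k l l) _ _ _ ?_
  have h1 : (fun t : ℝ => fx R k l (x + t • EuclideanSpace.single l (1 : ℝ)) l) =
      fun t => -(ps R (x k - (x l + t)) *
        (1 - ph R (x l + t) * chi R (x k) * Qa R k l x)) := by
    funext t
    rw [fx_apply, if_neg hkl.symm, if_pos rfl, Qa_add R k l l (Or.inr rfl)]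
    have h3 : (x + t • EuclideanSpace.single l (1 : ℝ)) k = x k := by simp [hkl]
    have h4 : (x + t • EuclideanSpace.single l (1 : ℝ)) l = x l + t := by simp
    rw [h3, h4]
  rw [h1]
  have i1 : HasDerivAt (fun t : ℝ => x k - (x l + t)) (-1) 0 :=
    ((hasDerivAt_id' (0 : ℝ)).const_add (x l)).const_sub (x k)
  have i2 : HasDerivAt (fun t : ℝ => x l + t) 1 0 :=
    (hasDerivAt_id' (0 : ℝ)).const_add (x l)
  have A : HasDerivAt (fun t : ℝ => ps R (x k - (x l + t)))
      (-(Real.exp (-(x k - (x l + 0)) / R) / R) * (-1)) 0 :=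
    HasDerivAt.comp (h₂ := ps R) (h := fun t : ℝ => x k - (x l + t)) 0 (hd_ps R _) i1
  have B : HasDerivAt (fun t : ℝ => ph R (x l + t)) (dph R (x l + 0) * 1) 0 :=
    HasDerivAt.comp (h₂ := ph R) (h := fun t : ℝ => x l + t) 0 (hd_ph R _) i2
  have := (A.mul (((B.mul_const (chi R (x k))).mul_const (Qa R k l x)).const_sub 1)).neg
  refine this.congr_deriv ?_
  simp only [add_zero]
  ring

theorem term_j {n : ℕ} (R : ℝ) (k l j : Fin n) (hjk : j ≠ k) (hjl : j ≠ l) (x : E n) :
    (fderiv ℝ (fx R k l) x (EuclideanSpace.single j 1)) j =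
      -(ps R (x k - x l) / n * (ph R (x l) * chi R (x k) * dqq R (x j) +
        ph R (-x k) * chi R (-x l) * dqq R (-x j))) := by
  rw [fderiv_comp]
  refine line _ (cd_comp R k l j) _ _ _ ?_
  have h1 : (fun t : ℝ => fx R k l (x + t • EuclideanSpace.single j (1 : ℝ)) j) =
      fun t => -(ps R (x k - x l) / n * (ph R (x l) * chi R (x k) * qq R (x j + t) -
        ph R (-x k) * chi R (-x l) * qq R (-(x j + t)))) := by
    funext t
    rw [fx_apply, if_neg hjk, if_neg hjl]
    have h3 : (x + t • EuclideanSpace.single j (1 : ℝ)) k = x k := by simp [hjk.symm]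
    have h5 : (x + t • EuclideanSpace.single j (1 : ℝ)) l = x l := by simp [hjl.symm]
    have h4 : (x + t • EuclideanSpace.single j (1 : ℝ)) j = x j + t := by simp
    rw [h3, h4, h5]
  rw [h1]
  have i1 : HasDerivAt (fun t : ℝ => -(x j + t)) (-1) 0 :=
    ((hasDerivAt_id' (0 : ℝ)).const_add (x j)).neg
  have i2 : HasDerivAt (fun t : ℝ => x j + t) 1 0 :=
    (hasDerivAt_id' (0 : ℝ)).const_add (x j)
  have A : HasDerivAt (fun t : ℝ => qq R (x j + t)) (dqq R (x j + 0) * 1) 0 :=
    HasDerivAt.comp (h₂ := qq R) (h := fun t : ℝ => x j + t) 0 (hd_qq R _) i2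
  have B : HasDerivAt (fun t : ℝ => qq R (-(x j + t))) (dqq R (-(x j + 0)) * (-1)) 0 :=
    HasDerivAt.comp (h₂ := qq R) (h := fun t : ℝ => -(x j + t)) 0 (hd_qq R _) i1
  have := (((A.const_mul (ph R (x l) * chi R (x k))).sub
    (B.const_mul (ph R (-x k) * chi R (-x l)))).const_mul (ps R (x k - x l) / n)).neg
  refine this.congr_deriv ?_
  simp only [add_zero]
  ring

theorem sum3 {n : ℕ} (k l : Fin n) (hkl : k ≠ l) (f : Fin n → ℝ) :
    ∑ j, f j = f k + (f l + ∑ j ∈ (Finset.univ.erase k).erase l, f j) := by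
  rw [← Finset.add_sum_erase _ _ (Finset.mem_univ k),
    ← Finset.add_sum_erase (Finset.univ.erase k) f (a := l) (by simp [hkl.symm])]

theorem dv_fx {n : ℕ} (R : ℝ) (k l : Fin n) (hkl : k ≠ l) (x : E n) :
    dv (fx R k l) x =
      -(Real.exp (-(x k - x l) / R) / R) * (2 - ph R (-x k) * chi R (-x l) * Qa R k l (-x) -
        ph R (x l) * chi R (x k) * Qa R k l x) +
      ps R (x k - x l) * chi R (x k) * (dph R (x l) * Qa R k l x -
        ph R (x l) * (1 / n * ∑ j ∈ (Finset.univ.erase k).erase l, dqq R (x j))) +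
      ps R (x k - x l) * chi R (-x l) * (dph R (-x k) * Qa R k l (-x) -
        ph R (-x k) * (1 / n * ∑ j ∈ (Finset.univ.erase k).erase l, dqq R (-x j))) := by
  unfold dv
  rw [sum3 k l hkl, term_k R k l hkl, term_l R k l hkl]
  have h1 : ∑ j ∈ (Finset.univ.erase k).erase l,
      (fderiv ℝ (fx R k l) x (EuclideanSpace.single j 1)) j =
      -(ps R (x k - x l) / n * (ph R (x l) * chi R (x k) *
        ∑ j ∈ (Finset.univ.erase k).erase l, dqq R (x j) +
        ph R (-x k) * chi R (-x l) * ∑ j ∈ (Finset.univ.erase k).erase l, dqq R (-x j))) := by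
    rw [Finset.mul_sum, Finset.mul_sum, ← Finset.sum_add_distrib, Finset.mul_sum,
      ← Finset.sum_neg_distrib]
    refine Finset.sum_congr rfl fun j hj => ?_
    rw [Finset.mem_erase, Finset.mem_erase] at hj
    exact term_j R k l j hj.2.1 hj.1 x
  rw [h1]
  ring

theorem field : S_FIELD := by
  intro n k l a hkl ha
  refine ⟨cd_fx _ k l, fun x hx => ?_⟩
  set R : ℝ := 48 * a with hRdef
  have hR : 0 < R := by rw [hRdef]; positivity
  have hn1 : 1 ≤ n := Nat.one_le_of_lt k.2
  have hn : (1 : ℝ) ≤ n := by exact_mod_cast hn1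
  have hn0 : (0 : ℝ) < n := by linarith
  have hcard : ((((Finset.univ : Finset (Fin n)).erase k).erase l).card : ℝ) = n - 2 := by
    have h1 : l ∈ (Finset.univ : Finset (Fin n)).erase k := by simp [hkl.symm]
    have h2 := Finset.card_erase_add_one h1
    have h3 := Finset.card_erase_add_one (Finset.mem_univ k)
    rw [Finset.card_univ, Fintype.card_fin] at h3
    have h4 : (((Finset.univ : Finset (Fin n)).erase k).erase l).card + 2 = n := by omega
    have h5 : ((((Finset.univ : Finset (Fin n)).erase k).erase l).card : ℝ) + 2 = n := by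
      exact_mod_cast h4
    linarith
  have hps1 : 1 ≤ ps R (x k - x l) := by
    unfold ps
    have := (Real.exp_pos (-(x k - x l) / R)).le
    linarith
  have hps2 : ps R (x k - x l) ≤ 2 := by
    unfold ps
    have h1 : Real.exp (-(x k - x l) / R) ≤ 1 := by
      rw [Real.exp_le_one_iff]
      exact div_nonpos_of_nonpos_of_nonneg (by linarith) hR.le
    linarith
  have hq1 := Qa_nonneg R hR k l x
  have hq2 := Qa_le R hR k l x
  have hq3 := Qa_nonneg R hR k l (-x)
  have hq4 := Qa_le R hR k l (-x)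
  have hP0 : 0 ≤ ph R (x l) * chi R (x k) :=
    mul_nonneg (by linarith [ph_ge R (x l)]) (chi_nonneg _ _)
  have hP1 : ph R (x l) * chi R (x k) ≤ 1 / 2 := by
    nlinarith [ph_ge R (x l), ph_le R (x l), chi_nonneg R (x k), chi_le R (x k)]
  have hM0 : 0 ≤ ph R (-x k) * chi R (-x l) :=
    mul_nonneg (by linarith [ph_ge R (-x k)]) (chi_nonneg _ _)
  have hM1 : ph R (-x k) * chi R (-x l) ≤ 1 / 2 := by
    nlinarith [ph_ge R (-x k), ph_le R (-x k), chi_nonneg R (-x l), chi_le R (-x l)]
  have hPQ0 : 0 ≤ ph R (x l) * chi R (x k) * Qa R k l x := mul_nonneg hP0 hq1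
  have hPQ1 : ph R (x l) * chi R (x k) * Qa R k l x ≤ 1 / 2 := by nlinarith
  have hMQ0 : 0 ≤ ph R (-x k) * chi R (-x l) * Qa R k l (-x) := mul_nonneg hM0 hq3
  have hMQ1 : ph R (-x k) * chi R (-x l) * Qa R k l (-x) ≤ 1 / 2 := by nlinarith
  refine ⟨?_, ?_, ?_⟩
  · -- norm
    have h1 : ‖fx R k l x‖ ^ 2 ≤ 9 := by
      rw [EuclideanSpace.norm_sq_eq, sum3 k l hkl]
      have h2 : ‖fx R k l x k‖ ^ 2 ≤ 4 := by
        rw [fx_apply, if_pos rfl, Real.norm_eq_abs, sq_abs]
        have e1 : 0 ≤ ps R (x k - x l) * (1 - ph R (-x k) * chi R (-x l) * Qa R k l (-x)) :=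
          mul_nonneg (by linarith) (by linarith)
        have e2 : ps R (x k - x l) * (1 - ph R (-x k) * chi R (-x l) * Qa R k l (-x)) ≤ 2 := by
          nlinarith
        nlinarith
      have h3 : ‖fx R k l x l‖ ^ 2 ≤ 4 := by
        rw [fx_apply, if_neg hkl.symm, if_pos rfl, Real.norm_eq_abs, sq_abs]
        have e1 : 0 ≤ ps R (x k - x l) * (1 - ph R (x l) * chi R (x k) * Qa R k l x) :=
          mul_nonneg (by linarith) (by linarith)
        have e2 : ps R (x k - x l) * (1 - ph R (x l) * chi R (x k) * Qa R k l x) ≤ 2 := by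
          nlinarith
        nlinarith
      have h4 : ∀ j ∈ (Finset.univ.erase k).erase l, ‖fx R k l x j‖ ^ 2 ≤ 1 / n := by
        intro j hj
        rw [Finset.mem_erase, Finset.mem_erase] at hj
        rw [fx_apply, if_neg hj.2.1, if_neg hj.1, Real.norm_eq_abs, sq_abs]
        have b1 := qq_nonneg R (x j) hR
        have b2 := qq_le R (x j) hR
        have b3 := qq_nonneg R (-x j) hR
        have b4 := qq_le R (-x j) hR
        have c1 : 0 ≤ ph R (x l) * chi R (x k) * qq R (x j) := mul_nonneg hP0 b1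
        have c2 : ph R (x l) * chi R (x k) * qq R (x j) ≤ 1 / 2 := by nlinarith
        have c3 : 0 ≤ ph R (-x k) * chi R (-x l) * qq R (-x j) := mul_nonneg hM0 b3
        have c4 : ph R (-x k) * chi R (-x l) * qq R (-x j) ≤ 1 / 2 := by nlinarith
        set D := ph R (x l) * chi R (x k) * qq R (x j) - ph R (-x k) * chi R (-x l) * qq R (-x j)
          with hD
        have d1 : D ^ 2 ≤ 1 / 4 := by
          have : |D| ≤ 1 / 2 := by rw [abs_le]; constructor <;> linarith
          have h := pow_le_pow_left₀ (abs_nonneg D) this 2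
          rw [sq_abs] at h
          linarith
        have d2 : (ps R (x k - x l)) ^ 2 ≤ 4 := by nlinarith
        have d3 : (-(ps R (x k - x l) / n * D)) ^ 2 = (ps R (x k - x l)) ^ 2 * D ^ 2 / n ^ 2 := by
          rw [neg_sq, mul_pow, div_pow]
          ring
        rw [d3, div_le_div_iff₀ (by positivity) hn0]
        have d4 : (ps R (x k - x l)) ^ 2 * D ^ 2 ≤ 1 := by
          nlinarith [sq_nonneg D, sq_nonneg (ps R (x k - x l))]
        nlinarith
      have h5 := Finset.sum_le_sum h4
      rw [Finset.sum_const, nsmul_eq_mul, hcard] at h5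
      have h6 : ((n : ℝ) - 2) * (1 / n) ≤ 1 := by
        rw [mul_one_div, div_le_one hn0]
        linarith
      linarith
    nlinarith [norm_nonneg (fx R k l x)]
  · -- divergence
    intro hnm
    rw [dv_fx R k l hkl]
    have htar : -(1 / (3072 * a)) = -(1 / 64 / R) := by
      rw [hRdef]
      field_simp
      norm_num
    rw [htar]
    have hxj : ∀ i, |x i| ≤ nm x := by
      intro i
      unfold nm
      exact Finset.single_le_sum (f := fun j => |x j|) (fun j _ => abs_nonneg _) (Finset.mem_univ i)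
    have hsum : ∀ y : Fin n → ℝ, (∀ j, |y j| = |x j|) → 48 < (n : ℝ) →
        5 / (12 * R) ≤ 1 / n * ∑ j ∈ (Finset.univ.erase k).erase l, dqq R (y j) := by
      intro y hy hn48
      have h1 : ∑ j ∈ (Finset.univ.erase k).erase l, 1 / (2 * R) * (1 - 6 * |x j| / R) ≤
          ∑ j ∈ (Finset.univ.erase k).erase l, dqq R (y j) := by
        refine Finset.sum_le_sum fun j _ => ?_
        rw [← hy j]
        exact dqq_ge R (y j) hR
      rw [← Finset.mul_sum, Finset.sum_sub_distrib, Finset.sum_const, nsmul_eq_mul, hcard,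
        mul_one] at h1
      have h2 : ∑ j ∈ (Finset.univ.erase k).erase l, 6 * |x j| / R ≤ n / 8 := by
        have h3 : ∑ j ∈ (Finset.univ.erase k).erase l, 6 * |x j| / R =
            6 / R * ∑ j ∈ (Finset.univ.erase k).erase l, |x j| := by
          rw [Finset.mul_sum]
          exact Finset.sum_congr rfl fun k _ => by ring
        have h4 : ∑ j ∈ (Finset.univ.erase k).erase l, |x j| ≤ nm x :=
          Finset.sum_le_sum_of_subset_of_nonneg
            ((Finset.erase_subset _ _).trans (Finset.erase_subset _ _)) fun j _ _ => abs_nonneg _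
        rw [h3]
        calc 6 / R * ∑ j ∈ (Finset.univ.erase k).erase l, |x j| ≤ 6 / R * (a * n) := by
              exact mul_le_mul_of_nonneg_left (h4.trans hnm) (by positivity)
          _ = n / 8 := by
              rw [hRdef]
              field_simp
              norm_num
      have h5 : 1 / (2 * R) * (5 / 6 * n) ≤
          ∑ j ∈ (Finset.univ.erase k).erase l, dqq R (y j) := by
        refine le_trans (mul_le_mul_of_nonneg_left ?_ (by positivity)) h1
        linarith
      calc 5 / (12 * R) = 1 / n * (1 / (2 * R) * (5 / 6 * n)) := by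
            field_simp
            norm_num
        _ ≤ _ := mul_le_mul_of_nonneg_left h5 (by positivity)
    have hbr : ∀ (u c Q S : ℝ), 0 ≤ Q → Q ≤ 1 → 0 ≤ c → (c ≠ 0 → 5 / (12 * R) ≤ S) →
        ps R (x k - x l) * c * (dph R u * Q - ph R u * S) ≤ -(c / (16 * R)) := by
      intro u c Q S hQ0 hQ1 hc hS
      by_cases hc0 : c = 0
      · rw [hc0]; simp
      · have h1 := hS hc0
        have h2 : dph R u * Q ≤ 1 / (32 * R) := by
          have h3 := dph_le R u hR
          have h4 : 0 ≤ 1 / (32 * R) := by positivity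
          nlinarith
        have h5 : 1 / 4 * (5 / (12 * R)) ≤ ph R u * S :=
          mul_le_mul (ph_ge R u) h1 (by positivity) (by linarith [ph_ge R u])
        have h6 : dph R u * Q - ph R u * S ≤ -(1 / (16 * R)) := by
          have h7 : 1 / (32 * R) - 1 / 4 * (5 / (12 * R)) ≤ -(1 / (16 * R)) := by
            have : 1 / (32 * R) - 1 / 4 * (5 / (12 * R)) + 1 / (16 * R) = -(1 / (96 * R)) := by
              field_simp
              norm_num
            have h8 : 0 ≤ 1 / (96 * R) := by positivity
            linarith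
          linarith
        have h9 : 0 ≤ 1 / (16 * R) := by positivity
        have h10 : ps R (x k - x l) * c * (dph R u * Q - ph R u * S) ≤
            ps R (x k - x l) * c * (-(1 / (16 * R))) :=
          mul_le_mul_of_nonneg_left h6 (mul_nonneg (by linarith) hc)
        have h11 : c ≤ ps R (x k - x l) * c := by nlinarith
        have h12 := mul_le_mul_of_nonneg_right h11 h9
        have h13 : c / (16 * R) = c * (1 / (16 * R)) := by ring
        rw [h13]
        linarith
    have hbig : ∀ i, R < |x i| → 48 < (n : ℝ) := by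
      intro i hi
      have h1 : 48 * a < a * n := by
        have := hxj i
        linarith
      nlinarith
    have b1 := hbr (x l) (chi R (x k)) (Qa R k l x)
      (1 / n * ∑ j ∈ (Finset.univ.erase k).erase l, dqq R (x j)) hq1 hq2 (chi_nonneg _ _) (by
        intro hc
        refine hsum (fun j => x j) (fun j => rfl) ?_
        refine hbig k ?_
        by_contra h
        push Not at h
        exact hc (chi_zero R (x k) hR ((le_abs_self _).trans h)))
    have b2 := hbr (-x k) (chi R (-x l)) (Qa R k l (-x))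
      (1 / n * ∑ j ∈ (Finset.univ.erase k).erase l, dqq R (-x j)) hq3 hq4 (chi_nonneg _ _) (by
        intro hc
        refine hsum (fun j => -x j) (fun j => abs_neg _) ?_
        refine hbig l ?_
        by_contra h
        push Not at h
        exact hc (chi_zero R (-x l) hR ((neg_le_abs _).trans h)))
    have hE : 0 ≤ Real.exp (-(x k - x l) / R) / R := by positivity
    have b0 : -(Real.exp (-(x k - x l) / R) / R) *
        (2 - ph R (-x k) * chi R (-x l) * Qa R k l (-x) -
        ph R (x l) * chi R (x k) * Qa R k l x) ≤ -(Real.exp (-(x k - x l) / R) / R) := by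
      nlinarith
    have hc1 : 0 ≤ chi R (x k) / (16 * R) := div_nonneg (chi_nonneg _ _) (by positivity)
    have hc2 : 0 ≤ chi R (-x l) / (16 * R) := div_nonneg (chi_nonneg _ _) (by positivity)
    have hcmp : 1 / 64 / R ≤ 1 / (16 * R) := by
      rw [div_div, one_div_le_one_div (by positivity) (by positivity)]
      linarith
    rcases le_or_gt (2 * R) (x k) with h | h
    · rw [chi_one R (x k) hR h] at b1 hc1 b0 ⊢
      linarith
    · rcases le_or_gt (2 * R) (-x l) with h' | h'
      · rw [chi_one R (-x l) hR h'] at b2 hc2 b0 ⊢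
        linarith
      · have h1 : (1 / 64 : ℝ) ≤ Real.exp (-(x k - x l) / R) := by
          have h2 : Real.exp (-4) ≤ Real.exp (-(x k - x l) / R) := by
            refine Real.exp_le_exp.2 ?_
            rw [le_div_iff₀ hR]
            linarith
          have h3 : (1 / 64 : ℝ) ≤ Real.exp (-4) := by
            rw [Real.exp_neg, one_div]
            refine inv_anti₀ (Real.exp_pos 4) ?_
            have h5 : Real.exp 4 = Real.exp 1 ^ 4 := by
              rw [← Real.exp_nat_mul]; norm_num
            rw [h5]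
            have h6 := Real.exp_one_lt_d9
            have h7 := Real.exp_pos 1
            calc Real.exp 1 ^ 4 ≤ (2.7182818286 : ℝ) ^ 4 := pow_le_pow_left₀ h7.le h6.le 4
              _ ≤ 64 := by norm_num
          linarith
        have h4 : 1 / 64 / R ≤ Real.exp (-(x k - x l) / R) / R := by gcongr
        linarith
  · -- representation
    have hcancel : ∀ j : Fin n, j ∈ (Finset.univ.erase k).erase l ↔ j ≠ l ∧ j ≠ k := by
      intro j
      simp
    let β : Fin n → ℝ := fun j => if j = k ∨ j = l then 0 else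
      ps R (x k - x l) / n * (ph R (x l) * chi R (x k) * qq R (x j))
    let γ : Fin n → ℝ := fun j => if j = k ∨ j = l then 0 else
      ps R (x k - x l) / n * (ph R (-x k) * chi R (-x l) * qq R (-x j))
    have hβk : β k = 0 := by simp [β]
    have hβl : β l = 0 := by simp [β]
    have hγk : γ k = 0 := by simp [γ]
    have hγl : γ l = 0 := by simp [γ]
    have hβs : ∑ j, β j = ps R (x k - x l) * (ph R (x l) * chi R (x k) * Qa R k l x) := by
      rw [sum3 k l hkl, hβk, hβl, zero_add, zero_add]
      unfold Qa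
      rw [Finset.mul_sum, Finset.mul_sum, Finset.mul_sum]
      refine Finset.sum_congr rfl fun j hj => ?_
      have := (hcancel j).mp hj
      simp only [β, if_neg (not_or.mpr ⟨this.2, this.1⟩)]
      ring
    have hγs : ∑ j, γ j = ps R (x k - x l) * (ph R (-x k) * chi R (-x l) * Qa R k l (-x)) := by
      rw [sum3 k l hkl, hγk, hγl, zero_add, zero_add]
      unfold Qa
      rw [Finset.mul_sum, Finset.mul_sum, Finset.mul_sum]
      refine Finset.sum_congr rfl fun j hj => ?_
      have := (hcancel j).mp hj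
      simp only [γ, if_neg (not_or.mpr ⟨this.2, this.1⟩), PiLp.neg_apply]
      ring
    refine ⟨ps R (x k - x l) * (1 - ph R (x l) * chi R (x k) * Qa R k l x -
      ph R (-x k) * chi R (-x l) * Qa R k l (-x)), β, γ, ?_, ?_, ?_, ?_, ?_, ?_⟩
    · exact mul_nonneg (by linarith) (by linarith)
    · intro j
      simp only [β]
      split_ifs
      · exact le_rfl
      · exact mul_nonneg (div_nonneg (by linarith) hn0.le) (mul_nonneg hP0 (qq_nonneg R _ hR))
    · intro j
      simp only [γ]
      split_ifs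
      · exact le_rfl
      · exact mul_nonneg (div_nonneg (by linarith) hn0.le) (mul_nonneg hM0 (qq_nonneg R _ hR))
    · intro j hj
      simp only [β] at hj
      split_ifs at hj with h
      · exact absurd rfl hj
      · have h1 : R < x k := by
          by_contra h'
          push Not at h'
          apply hj
          rw [chi_zero R (x k) hR h']
          ring
        have h2 : |x j| < R := by
          by_contra h'
          push Not at h'
          apply hj
          rw [qq_zero R (x j) hR h']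
          ring
        have := le_abs_self (x j)
        linarith
    · intro j hj
      simp only [γ] at hj
      split_ifs at hj with h
      · exact absurd rfl hj
      · have h1 : R < -x l := by
          by_contra h'
          push Not at h'
          apply hj
          rw [chi_zero R (-x l) hR h']
          ring
        have h2 : |x j| < R := by
          by_contra h'
          push Not at h'
          apply hj
          rw [qq_zero R (-x j) hR (by rwa [abs_neg])]
          ring
        have := neg_abs_le (x j)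
        linarith
    · have hsβ : ∀ i, (∑ j, β j • (ev k - ev j) : E n) i =
          (∑ j, β j) * (ev k : E n) i - β i := by
        intro i
        simp only [ev, PiLp.sub_apply, PiLp.smul_apply, smul_eq_mul, WithLp.ofLp_sum,
          Finset.sum_apply, mul_sub, Finset.sum_sub_distrib, ← Finset.sum_mul]
        congr 1
        rw [Finset.sum_eq_single i]
        · simp
        · intro b _ hb
          simp [hb.symm]
        · intro h
          exact absurd (Finset.mem_univ _) h
      have hsγ : ∀ i, (∑ j, γ j • (ev j - ev l) : E n) i =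
          γ i - (∑ j, γ j) * (ev l : E n) i := by
        intro i
        simp only [ev, PiLp.sub_apply, PiLp.smul_apply, smul_eq_mul, WithLp.ofLp_sum,
          Finset.sum_apply, mul_sub, Finset.sum_sub_distrib, ← Finset.sum_mul]
        congr 1
        rw [Finset.sum_eq_single i]
        · simp
        · intro b _ hb
          simp [hb.symm]
        · intro h
          exact absurd (Finset.mem_univ _) h
      ext i
      have hadd : ∀ (u v w : E n), (u + v + w) i = u i + v i + w i := fun u v w => rfl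
      rw [hadd, hsβ, hsγ, hβs, hγs, fx_apply]
      by_cases hik : i = k
      · subst hik
        rw [if_pos rfl, hβk, hγk]
        simp [ev, hkl]
        ring
      · by_cases hil : i = l
        · subst hil
          rw [if_neg hik, if_pos rfl, hβl, hγl]
          simp [ev, hik]
          ring
        · rw [if_neg hik, if_neg hil]
          simp only [β, γ, if_neg (not_or.mpr ⟨hik, hil⟩)]
          simp [ev, hik, hil]
          ring

end Pool.Agent.W398.SX
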