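import Pool.Agent.W586.SK.Stm2
import Pool.Agent.H888R2.KT.N9
import Pool.Agent.H888R2.KT.N10

/-! # Symmetric functions -/

set_option autoImplicit false

namespace Pool.Agent.W398.SX

open MeasureTheory Set
open scoped ENNReal InnerProductSpace
open Pool.Agent.H212R2.KLS (mu Bdd)
open Pool.Agent.H888R2.KT (LC St zz gs gc pst hs)
open Pool.Agent.H888R2.KT
open Pool.Agent.H888R2.KT.N9x
open Pool.Agent.W586.SK (E)
open Pool.Agent.W586.SX

theorem hs_eq {n : ℕ} (v : E n → ℝ) (x : E n) : hs v x =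
    ∑ i, ‖fderiv ℝ (fun z => fderiv ℝ v z (EuclideanSpace.single i 1)) x‖ ^ 2 := by
  unfold hs
  refine Finset.sum_congr rfl fun i _ => ?_
  congr!

theorem rho_sw {n : ℕ} {ρ : E n → ℝ} (hS : Sx ρ) (k l : Fin n) (x : E n) :
    ρ (sw k l x) = ρ x := by
  apply hS.inv (Equiv.swap k l)
  intro j
  rw [sw_apply]

theorem sw_single {n : ℕ} (k l : Fin n) (i : Fin n) :
    sw k l (EuclideanSpace.single i (1 : ℝ)) = EuclideanSpace.single (Equiv.swap k l i) (1 : ℝ) := by
  ext j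
  rw [sw_apply]
  by_cases h : j = Equiv.swap k l i
  · subst h
    rw [Equiv.swap_apply_self]
    simp
  · have h2 : Equiv.swap k l j ≠ i := by
      intro h3
      apply h
      rw [← h3, Equiv.swap_apply_self]
    simp [h, h2]

theorem dir {n : ℕ} (v : E n → ℝ) (hv : ContDiff ℝ 2 v) (k l : Fin n)
    (he : ∀ x, v (sw k l x) = v x) (z : E n) (i : Fin n) :
    fderiv ℝ v (sw k l z) (EuclideanSpace.single (Equiv.swap k l i) 1) =
      fderiv ℝ v z (EuclideanSpace.single i 1) := by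
  have hd : Differentiable ℝ v := hv.differentiable (by norm_num)
  have h1 : HasFDerivAt (fun x => v (sw k l x))
      ((fderiv ℝ v (sw k l z)).comp ((sw k l).toContinuousLinearEquiv : E n →L[ℝ] E n)) z :=
    (hd (sw k l z)).hasFDerivAt.comp z ((sw k l).toContinuousLinearEquiv.hasFDerivAt)
  have h2 : (fun x => v (sw k l x)) = v := funext he
  rw [h2] at h1
  have h3 := h1.fderiv
  rw [h3]
  simp only [ContinuousLinearMap.comp_apply]
  have h4 : ((sw k l).toContinuousLinearEquiv : E n →L[ℝ] E n) (EuclideanSpace.single i (1 : ℝ)) =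
      EuclideanSpace.single (Equiv.swap k l i) (1 : ℝ) := sw_single k l i
  rw [h4]

theorem alg {n : ℕ} (hn : 1 ≤ n) (a : Fin n → ℝ) :
    ∑ k, a k ^ 2 - 1 / (n : ℝ) * (∑ k, a k) ^ 2 =
      1 / (2 * (n : ℝ)) * ∑ k, ∑ l, (a k - a l) ^ 2 := by
  have hn' : (n : ℝ) ≠ 0 := by
    have : (0 : ℝ) < n := by exact_mod_cast hn
    exact this.ne'
  have h1 : ∑ k, ∑ l, (a k - a l) ^ 2 = 2 * n * ∑ k, a k ^ 2 - 2 * (∑ k, a k) ^ 2 := by
    have h2 : ∀ k l, (a k - a l) ^ 2 = a k ^ 2 - 2 * (a k * a l) + a l ^ 2 := fun k l => by ring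
    simp only [h2, Finset.sum_add_distrib, Finset.sum_sub_distrib, Finset.sum_const,
      Finset.card_univ, Fintype.card_fin, nsmul_eq_mul, ← Finset.mul_sum, ← Finset.sum_mul]
    ring
  rw [h1]
  field_simp

theorem alg2 {n : ℕ} (hn : 1 ≤ n) (A : Fin n → (E n →L[ℝ] ℝ)) :
    1 / (2 * (n : ℝ)) * ∑ k, ∑ l, ‖A k - A l‖ ^ 2 ≤ ∑ k, ‖A k‖ ^ 2 := by
  classical
  have hn' : (0 : ℝ) < n := by exact_mod_cast hn
  have h1 : ∀ k l, ‖A k - A l‖ ^ 2 =
      ∑ i, (A k (EuclideanSpace.single i 1) - A l (EuclideanSpace.single i 1)) ^ 2 := by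
    intro k l
    rw [Pool.Agent.H888R2.KT.N8x.norm_sq_clm]
    rfl
  have h2 : ∑ k, ∑ l, ‖A k - A l‖ ^ 2 =
      ∑ i, ∑ k, ∑ l, (A k (EuclideanSpace.single i 1) - A l (EuclideanSpace.single i 1)) ^ 2 := by
    simp only [h1]
    rw [Finset.sum_comm' (s := Finset.univ) (t := fun _ => Finset.univ) (t' := Finset.univ)
      (s' := fun _ => Finset.univ) (by simp)]
    rw [Finset.sum_comm]
    have : ∀ k, ∑ l, ∑ i, (A k (EuclideanSpace.single i 1) - A l (EuclideanSpace.single i 1)) ^ 2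
        = ∑ i, ∑ l, (A k (EuclideanSpace.single i 1) - A l (EuclideanSpace.single i 1)) ^ 2 :=
      fun k => Finset.sum_comm
    simp only [this]
    rw [Finset.sum_comm]
  have h3 : ∑ k, ‖A k‖ ^ 2 = ∑ i, ∑ k, (A k (EuclideanSpace.single i 1)) ^ 2 := by
    rw [Finset.sum_comm]
    exact Finset.sum_congr rfl fun k _ => Pool.Agent.H888R2.KT.N8x.norm_sq_clm _
  rw [h2, h3, Finset.mul_sum]
  refine Finset.sum_le_sum fun i _ => ?_
  rw [← alg hn]
  have : 0 ≤ 1 / (n : ℝ) * (∑ k, A k (EuclideanSpace.single i 1)) ^ 2 := by positivity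
  linarith

theorem ee_eq (n : ℕ) : ee n = ∑ k, (1 / Real.sqrt n) • (EuclideanSpace.single k (1 : ℝ) : E n) := by
  ext j
  simp [ee, Pi.single_apply]

theorem ee_norm {n : ℕ} (hn : 1 ≤ n) : ‖ee n‖ = 1 := by
  have hn' : (0 : ℝ) < n := by exact_mod_cast hn
  have h1 : ‖ee n‖ ^ 2 = 1 := by
    rw [EuclideanSpace.real_norm_sq_eq]
    simp only [ee]
    rw [Finset.sum_const, Finset.card_univ, Fintype.card_fin, nsmul_eq_mul, div_pow,
      Real.sq_sqrt hn'.le]
    field_simp
  have h2 : 0 ≤ ‖ee n‖ := norm_nonneg _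
  nlinarith

theorem sym (h : S_ITER) : S_SYM := by
  intro n ρ hn hSx hρ L hL hodd K hLK hSt u hu1 hu
  classical
  have hn' : (0 : ℝ) < n := by exact_mod_cast hn
  have hK : 0 < K := lt_of_lt_of_le hL hLK
  have hon : Orthonormal ℝ (fun _ : Fin 1 => ee n) := by
    refine ⟨fun _ => ee_norm hn, ?_⟩
    intro i j hij
    exact absurd (Subsingleton.elim i j) hij
  refine h hρ (fun _ : Fin 1 => ee n) hon K hK hSt K le_rfl {w | ∀ k l x, w (sw k l x) = w x}
    ?_ ?_ u hu hu1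
  · intro w hw _ k l x
    exact equiv hρ K (sw k l) (rho_sw hSx k l) w (hw k l) x
  · intro w hw hw1
    obtain ⟨h2, -⟩ := key hρ (fun _ : Fin 1 => ee n) hon K hK hSt K hK w hw1
    have hinv : ∀ k l x, gs K (pst K ρ w) (sw k l x) = gs K (pst K ρ w) x := fun k l x =>
      equiv hρ K (sw k l) (rho_sw hSx k l) w (hw k l) x
    generalize gs K (pst K ρ w) = v at h2 hinv ⊢
    have hdi : ∀ i : Fin n, ContDiff ℝ 1 (fun z => fderiv ℝ v z (EuclideanSpace.single i (1 : ℝ))) :=
      fun i => (h2.fderiv_right (m := 1) (by norm_num)).clm_apply contDiff_const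
    have hdkl : ∀ k l : Fin n, ContDiff ℝ 1 (fun z => fderiv ℝ v z (EuclideanSpace.single k (1 : ℝ)) -
        fderiv ℝ v z (EuclideanSpace.single l (1 : ℝ))) := fun k l => (hdi k).sub (hdi l)
    -- the left side
    have hleft : ∀ x, ‖fderiv ℝ v x‖ ^ 2 - ∑ _j : Fin 1, (fderiv ℝ v x (ee n)) ^ 2 =
        1 / (2 * (n : ℝ)) * ∑ k, ∑ l, (fderiv ℝ v x (EuclideanSpace.single k (1 : ℝ)) -
          fderiv ℝ v x (EuclideanSpace.single l (1 : ℝ))) ^ 2 := by
      intro x
      rw [← alg hn, Pool.Agent.H888R2.KT.N8x.norm_sq_clm, ee_eq]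
      simp only [Finset.univ_unique, Finset.sum_const, Finset.card_singleton, one_smul, map_sum,
        map_smul, smul_eq_mul, ← Finset.mul_sum, mul_pow, div_pow, one_pow, Real.sq_sqrt hn'.le]
    have hpair : ∀ k l : Fin n,
        ∫ x, (fderiv ℝ v x (EuclideanSpace.single k (1 : ℝ)) -
          fderiv ℝ v x (EuclideanSpace.single l (1 : ℝ))) ^ 2 ∂(mu ρ) ≤
        L * ∫ x, ‖fderiv ℝ (fun z => fderiv ℝ v z (EuclideanSpace.single k (1 : ℝ))) x -
          fderiv ℝ (fun z => fderiv ℝ v z (EuclideanSpace.single l (1 : ℝ))) x‖ ^ 2 ∂(mu ρ) := by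
      intro k l
      by_cases hkl : k = l
      · subst hkl
        simp
      · have h3 := hodd k l _ hkl (hdkl k l) (by
          intro x
          have e1 := dir v h2 k l (hinv k l) x k
          have e2 := dir v h2 k l (hinv k l) x l
          rw [Equiv.swap_apply_left] at e1
          rw [Equiv.swap_apply_right] at e2
          rw [e1, e2]
          ring)
        refine h3.trans (le_of_eq ?_)
        congr 1
        refine integral_congr_ae (Filter.Eventually.of_forall fun x => ?_)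
        show ‖fderiv ℝ (fun z => fderiv ℝ v z (EuclideanSpace.single k (1 : ℝ)) -
          fderiv ℝ v z (EuclideanSpace.single l (1 : ℝ))) x‖ ^ 2 = _
        rw [fderiv_fun_sub ((hdi k).differentiable (by norm_num) x)
          ((hdi l).differentiable (by norm_num) x)]
    have i1 : ∀ k l : Fin n, Integrable (fun x => (fderiv ℝ v x (EuclideanSpace.single k (1 : ℝ)) -
          fderiv ℝ v x (EuclideanSpace.single l (1 : ℝ))) ^ 2) (mu ρ) := fun k l =>
      int_cont hρ ((hdkl k l).continuous.pow 2)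
    have i2 : ∀ k l : Fin n, Integrable (fun x =>
        ‖fderiv ℝ (fun z => fderiv ℝ v z (EuclideanSpace.single k (1 : ℝ))) x -
          fderiv ℝ (fun z => fderiv ℝ v z (EuclideanSpace.single l (1 : ℝ))) x‖ ^ 2) (mu ρ) :=
      fun k l => int_cont hρ ((((hdi k).continuous_fderiv (by norm_num)).sub
        ((hdi l).continuous_fderiv (by norm_num))).norm.pow 2)
    have h4 : ∫ x, (‖fderiv ℝ v x‖ ^ 2 - ∑ _j : Fin 1, (fderiv ℝ v x (ee n)) ^ 2) ∂(mu ρ) =
        1 / (2 * (n : ℝ)) * ∑ k, ∑ l, ∫ x, (fderiv ℝ v x (EuclideanSpace.single k (1 : ℝ)) -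
          fderiv ℝ v x (EuclideanSpace.single l (1 : ℝ))) ^ 2 ∂(mu ρ) := by
      simp only [hleft]
      rw [integral_const_mul, integral_finsetSum]
      · congr 1
        refine Finset.sum_congr rfl fun k _ => ?_
        rw [integral_finsetSum]
        intro l _
        exact i1 k l
      · intro k _
        exact integrable_finsetSum _ fun l _ => i1 k l
    have h5 : 1 / (2 * (n : ℝ)) * ∑ k : Fin n, ∑ l : Fin n,
        ∫ x, ‖fderiv ℝ (fun z => fderiv ℝ v z (EuclideanSpace.single k (1 : ℝ))) x -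
          fderiv ℝ (fun z => fderiv ℝ v z (EuclideanSpace.single l (1 : ℝ))) x‖ ^ 2 ∂(mu ρ) ≤
        ∫ x, hs v x ∂(mu ρ) := by
      have e1 : 1 / (2 * (n : ℝ)) * ∑ k : Fin n, ∑ l : Fin n,
        ∫ x, ‖fderiv ℝ (fun z => fderiv ℝ v z (EuclideanSpace.single k (1 : ℝ))) x -
          fderiv ℝ (fun z => fderiv ℝ v z (EuclideanSpace.single l (1 : ℝ))) x‖ ^ 2 ∂(mu ρ) =
        ∫ x, 1 / (2 * (n : ℝ)) * ∑ k : Fin n, ∑ l : Fin n,
          ‖fderiv ℝ (fun z => fderiv ℝ v z (EuclideanSpace.single k (1 : ℝ))) x -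
          fderiv ℝ (fun z => fderiv ℝ v z (EuclideanSpace.single l (1 : ℝ))) x‖ ^ 2 ∂(mu ρ) := by
        rw [integral_const_mul, integral_finsetSum]
        · congr 1
          refine Finset.sum_congr rfl fun k _ => ?_
          rw [integral_finsetSum]
          intro l _
          exact i2 k l
        · intro k _
          exact integrable_finsetSum _ fun l _ => i2 k l
      rw [e1]
      refine integral_mono ?_ (int_cont hρ (hs_cont h2)) ?_
      · exact (integrable_finsetSum _ fun k _ => integrable_finsetSum _ fun l _ => i2 k l).const_mul _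
      · intro x
        show _ ≤ hs v x
        rw [hs_eq]
        exact alg2 hn (fun k => fderiv ℝ (fun z => fderiv ℝ v z (EuclideanSpace.single k (1 : ℝ))) x)
    have h6 : 0 ≤ ∫ x, hs v x ∂(mu ρ) := by
      refine integral_nonneg fun x => ?_
      show 0 ≤ hs v x
      rw [hs_eq]
      positivity
    rw [h4]
    calc 1 / (2 * (n : ℝ)) * ∑ k, ∑ l, ∫ x, (fderiv ℝ v x (EuclideanSpace.single k (1 : ℝ)) -
          fderiv ℝ v x (EuclideanSpace.single l (1 : ℝ))) ^ 2 ∂(mu ρ)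
        ≤ 1 / (2 * (n : ℝ)) * ∑ k : Fin n, ∑ l : Fin n, L *
          ∫ x, ‖fderiv ℝ (fun z => fderiv ℝ v z (EuclideanSpace.single k (1 : ℝ))) x -
          fderiv ℝ (fun z => fderiv ℝ v z (EuclideanSpace.single l (1 : ℝ))) x‖ ^ 2 ∂(mu ρ) := by
          refine mul_le_mul_of_nonneg_left ?_ (by positivity)
          exact Finset.sum_le_sum fun k _ => Finset.sum_le_sum fun l _ => hpair k l
      _ = L * (1 / (2 * (n : ℝ)) * ∑ k : Fin n, ∑ l : Fin n,
          ∫ x, ‖fderiv ℝ (fun z => fderiv ℝ v z (EuclideanSpace.single k (1 : ℝ))) x -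
          fderiv ℝ (fun z => fderiv ℝ v z (EuclideanSpace.single l (1 : ℝ))) x‖ ^ 2 ∂(mu ρ)) := by
          simp only [← Finset.mul_sum]
          ring
      _ ≤ L * ∫ x, hs v x ∂(mu ρ) := mul_le_mul_of_nonneg_left h5 hL.le
      _ ≤ K * ∫ x, hs v x ∂(mu ρ) := mul_le_mul_of_nonneg_right hLK h6

end Pool.Agent.W398.SX
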